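import Mathlib
import Pool.Agent.GPerm59.Base

/-!
# G-permutable subgroups of finite simple groups: supplements are almost simple

`conj B x` is the conjugate `x⁻¹ B x` and `GPermutable A` says that every subgroup of `G` has a
conjugate that permutes with `A`; both are defined in `Pool.Agent.GPerm59.Base`.
-/

namespace Pool.Agent.Results.MP_8f3271_al.AlmostSimpleSupplement

open Pointwise Pool.Agent.GPerm59

/-- If `A` permutes with `conj B x` and `B` does not cover with `A`, then they generate a proper
subgroup, and `A` lies in `conj B x` if `B` is maximal. -/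
lemma first_alternative {G : Type*} [Group G] [Finite G] {A B : Subgroup G} {x : G}
    (hx : (A : Set G) * (conj B x : Set G) = (conj B x : Set G) * (A : Set G))
    (hc : ¬ Cov A B) : A ⊔ conj B x ≠ ⊤ ∧ (IsCoatom B → A ≤ conj B x) := by
  have hne : A ⊔ conj B x ≠ ⊤ := by
    intro h
    apply hc
    have h1 : prod A (conj B x) hx = ⊤ := by
      rw [eq_top_iff, ← h]
      exact sup_le (left_le_prod hx) (right_le_prod hx)
    have h2 := (cov_of_prod_eq_top hx h1).conj x⁻¹
    rwa [conj_conj, mul_inv_cancel, conj_one] at h2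
  refine ⟨hne, ?_⟩
  intro hco
  by_contra hle
  apply hne
  -- `conj B x` is maximal too
  have h1 : B < conj (A ⊔ conj B x) x⁻¹ := by
    refine lt_of_le_of_ne ?_ ?_
    · have := conj_mono (le_sup_right : conj B x ≤ A ⊔ conj B x) x⁻¹
      rwa [conj_conj, mul_inv_cancel, conj_one] at this
    · intro h2
      apply hle
      rw [h2, conj_conj, inv_mul_cancel, conj_one]
      exact le_sup_left
  have h2 := hco.2 _ h1
  have h3 := conj_mono h2.ge x
  rw [conj_conj, inv_mul_cancel, conj_one, conj_top] at h3
  exact top_le_iff.1 h3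

/-- Let `G` be a finite nonabelian simple group, `A` a `G`-permutable subgroup with `1 ≠ A ≠ G`
and `B ≠ G` a subgroup. Either some conjugate of `B` permutes with `A` and generates with it a
proper subgroup, or `B` is almost simple, with a socle `S` that is not an alternating group,
and `G = A S ^ x` for all `x`. If the order of `A` is a prime, then the first alternative holds
for every `B`. -/
theorem result {G : Type*} [Group G] [Finite G] [IsSimpleGroup G]
    (hG : ∃ a b : G, a * b ≠ b * a) {A : Subgroup G} (hA : GPermutable A)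
    (hA1 : A ≠ ⊥) (hAt : A ≠ ⊤) (B : Subgroup G) (hB : B ≠ ⊤) :
    ((∃ x : G, (A : Set G) * (conj B x : Set G) = (conj B x : Set G) * (A : Set G) ∧
        A ⊔ conj B x ≠ ⊤ ∧ (IsCoatom B → A ≤ conj B x)) ∨
      ∃ S : Subgroup G, S ≤ B ∧ (∀ b ∈ B, conj S b = S) ∧ IsSimpleGroup S ∧
        (∃ s t : S, s * t ≠ t * s) ∧
        (∀ n : ℕ, IsEmpty (S ≃* alternatingGroup (Fin n))) ∧
        Subgroup.centralizer (S : Set G) = ⊥ ∧
        (∀ x : G, (A : Set G) * (conj S x : Set G) = Set.univ) ∧
        GPermutable (A.subgroupOf S) ∧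
        ∀ C : Subgroup G, C ≤ S → (∀ x : G, (A : Set G) * (conj C x : Set G) = Set.univ) ∨
          Nat.card G ∣ (C.relIndex S).factorial) ∧
      ((Nat.card A).Prime → ∃ x : G,
        (A : Set G) * (conj B x : Set G) = (conj B x : Set G) * (A : Set G) ∧
        A ⊔ conj B x ≠ ⊤ ∧ (IsCoatom B → A ≤ conj B x)) := by
  obtain ⟨x, hx⟩ := hA B
  refine ⟨?_, fun hp => ⟨x, hx, first_alternative hx fun h =>
    no_supplement_of_prime hG hA hp hB h⟩⟩
  by_cases hc : Cov A B
  · right
    obtain ⟨S, hSB, hSn, hS, hS2, hS3, hAS⟩ := almost_simple hG hA hA1 hAt hc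
    have hSt : S ≠ ⊤ := fun h => hB (top_le_iff.1 (h ▸ hSB))
    refine ⟨S, hSB, hSn, hS, hS2, ?_, ?_, ?_, permutable_inter hA hAS, ?_⟩
    · exact fun n => ⟨fun e => not_alternating hA hAt n S hSt hAS e⟩
    · apply hS3
      intro s hs c hc
      exact Subgroup.mem_centralizer_iff.1 hc s hs
    · exact fun x => cov_iff.2 (hAS.conj x)
    · intro C hC
      by_cases hcov : Cov A C
      · exact Or.inl fun x => cov_iff.2 (hcov.conj x)
      · exact Or.inr (card_dvd_factorial hA hAS hC hcov)
  · exact Or.inl ⟨x, hx, first_alternative hx hc⟩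

end Pool.Agent.Results.MP_8f3271_al.AlmostSimpleSupplement
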