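import Pool.Agent.Lib.MP_8f3271_al.L.Main

/-!
# MP_8f3271_al: the groups PSL(n, F), n ≥ 3

For `n ≥ 3` and every finite field `F` the group `PSL(n, F)` is simple and not abelian, and its only
`G`-permutable subgroups are `1` and `G`.
-/

open Pool.Agent.GPerm59

namespace Pool.Agent.Results.MP_8f3271_al.ProjectiveLinear

theorem result {n : ℕ} (hn : 3 ≤ n) (F : Type*) [Field F] [Finite F] :
    IsSimpleGroup (Matrix.ProjectiveSpecialLinearGroup (Fin n) F) ∧
      ∀ A : Subgroup (Matrix.ProjectiveSpecialLinearGroup (Fin n) F), GPermutable A →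
        A = ⊥ ∨ A = ⊤ :=
  ⟨Pool.Agent.Lib.MP_8f3271_al.psl_simple hn F,
    fun A hA => Pool.Agent.Lib.MP_8f3271_al.main hn F A hA⟩

end Pool.Agent.Results.MP_8f3271_al.ProjectiveLinear
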