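import Pool.Agent.Lib.MP_8f3271_al.P.Final

/-!
# MP_8f3271_al: the groups PSU(n, q), n ≥ 3, q ≥ 3

`F` is a finite field with a nontrivial involution `star`, so `|F| = q ^ 2` and `star x = x ^ q`; `|F| > 4` says `q ≥ 3`. For `n ≥ 3`
the group `PSU(n, q)` is simple, and if `(n, q) ≠ (4, 3)` its only `G`-permutable subgroups are `1` and `G`.
-/

open Pool.Agent.GPerm59

namespace Pool.Agent.Results.MP_8f3271_al.ProjectiveUnitary

theorem result {n : ℕ} (hn : 3 ≤ n) (F : Type*) [Field F] [Finite F] [StarRing F]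
    (hs : ∃ a : F, star a ≠ a) (hc : 4 < Nat.card F) :
    IsSimpleGroup (Matrix.specialUnitaryGroup (Fin n) F ⧸
      Subgroup.center (Matrix.specialUnitaryGroup (Fin n) F)) ∧
    ((n = 4 → Nat.card F ≠ 9) →
      ∀ A : Subgroup (Matrix.specialUnitaryGroup (Fin n) F ⧸
        Subgroup.center (Matrix.specialUnitaryGroup (Fin n) F)), GPermutable A →
        A = ⊥ ∨ A = ⊤) :=
  Pool.Agent.Lib.MP_8f3271_al.PSU.final hn F hs hc

end Pool.Agent.Results.MP_8f3271_al.ProjectiveUnitary
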